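import Pool.Agent.Lib_helper51.GL.Defs

/-!
# GL, block SYM: the Rédei pairing is symmetric (seat 2, helper45)
-/

set_option autoImplicit false
namespace Pool.Agent.GL

open Finset Pool.Agent.PQ

/-- the value of `χ_p` at the ambiguous class `d'`, `d' ∣ m` -/
noncomputable def bp (m q d' p : ℕ) : ℤ :=
  if p ∣ d' then jacobiSym ((m / d' * q : ℕ) : ℤ) p else jacobiSym (d' : ℤ) p

/-- symmetric Rédei matrix -/
noncomputable def sym_a (m q p p' : ℕ) : ℤ :=
  if p = p' then jacobiSym ((m / p * q : ℕ) : ℤ) p else jacobiSym (p' : ℤ) p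

theorem sym_prod (S : Finset ℕ) (f : ℕ → ℕ) (p : ℕ) :
    jacobiSym ((∏ x ∈ S, f x : ℕ) : ℤ) p = ∏ x ∈ S, jacobiSym (f x : ℤ) p := by
  classical
  induction S using Finset.induction_on with
  | empty => simp
  | insert a S ha ih => rw [prod_insert ha, prod_insert ha, Nat.cast_mul, jacobiSym.mul_left, ih]

theorem sym_symm (m q : ℕ) (p p' : ℕ) (h : p % 4 = 1) (h' : p' % 4 = 1) :
    sym_a m q p p' = sym_a m q p' p := by
  unfold sym_a
  by_cases e : p = p'
  · subst e; simp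
  · rw [if_neg e, if_neg (Ne.symm e)]
    have ho : Odd p := Nat.odd_iff.2 (by omega)
    exact jacobiSym.quadratic_reciprocity_one_mod_four h' ho

theorem sym_bp (m q : ℕ) (hf : Fam m q) (d' p : ℕ) (hd' : d' ∣ m) (hp : p.Prime) :
    bp m q d' p = ∏ p' ∈ d'.primeFactors, sym_a m q p p' := by
  obtain ⟨hsq, hq, hq3, h3, h4⟩ := hf
  have hsm : Squarefree m := hsq.squarefree_of_dvd (Nat.dvd_mul_right m q)
  have hm0 : m ≠ 0 := hsm.ne_zero
  have hd0 : d' ≠ 0 := fun h => hm0 (by rw [h] at hd'; exact Nat.eq_zero_of_zero_dvd hd')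
  have hsd : Squarefree d' := hsm.squarefree_of_dvd hd'
  have hdp : ∏ x ∈ d'.primeFactors, x = d' := Nat.prod_primeFactors_of_squarefree hsd
  unfold bp
  by_cases h : p ∣ d'
  · rw [if_pos h]
    have hmem : p ∈ d'.primeFactors := Nat.mem_primeFactors.2 ⟨hp, h, hd0⟩
    rw [← mul_prod_erase _ _ hmem]
    have e1 : sym_a m q p p = jacobiSym ((m / p * q : ℕ) : ℤ) p := by simp [sym_a]
    have e2 : ∏ x ∈ d'.primeFactors.erase p, sym_a m q p x = jacobiSym ((d' / p : ℕ) : ℤ) p := by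
      have e3 : d' / p = ∏ x ∈ d'.primeFactors.erase p, x := by
        have e4 := mul_prod_erase d'.primeFactors (fun x => x) hmem
        rw [hdp] at e4
        exact Nat.div_eq_of_eq_mul_right hp.pos e4.symm
      rw [e3, sym_prod]
      refine prod_congr rfl fun x hx => ?_
      unfold sym_a
      rw [if_neg (Ne.symm (ne_of_mem_erase hx))]
    rw [e1, e2]
    have e5 : m / p * q = (m / d' * q) * (d' / p) := by
      obtain ⟨k, hk⟩ := hd'
      obtain ⟨l, hl⟩ := h
      subst hl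
      rw [hk, Nat.mul_div_cancel_left _ (Nat.pos_of_ne_zero hd0), Nat.mul_div_cancel_left _ hp.pos,
        Nat.mul_assoc p l k, Nat.mul_div_cancel_left _ hp.pos]
      ring
    rw [e5, Nat.cast_mul (m / d' * q), jacobiSym.mul_left]
    have hcop : IsCoprime ((d' / p : ℕ) : ℤ) (p : ℤ) := by
      rw [Nat.isCoprime_iff_coprime]
      obtain ⟨l, hl⟩ := h
      rw [hl, Nat.mul_div_cancel_left _ hp.pos]
      rw [hl] at hsd
      exact (Nat.coprime_of_squarefree_mul hsd).symm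
    have e6 : jacobiSym ((d' / p : ℕ) : ℤ) p * jacobiSym ((d' / p : ℕ) : ℤ) p = 1 := by
      have := jacobiSym.sq_one (a := ((d' / p : ℕ) : ℤ)) (b := p) (Int.isCoprime_iff_gcd_eq_one.1 hcop)
      rw [← sq]; exact this
    rw [mul_assoc, e6, mul_one]
  · rw [if_neg h]
    conv_lhs => rw [← hdp]
    rw [sym_prod]
    refine prod_congr rfl fun x hx => ?_
    unfold sym_a
    rw [if_neg]
    rintro rfl
    exact h (Nat.dvd_of_mem_primeFactors hx)

theorem sym (m q : ℕ) (hf : Fam m q) (d d' : ℕ) (hd : d ∈ K m q) (hd' : d' ∣ m) :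
    ∏ p ∈ d.primeFactors, bp m q d' p = 1 := by
  classical
  have hsm : Squarefree m := hf.1.squarefree_of_dvd (Nat.dvd_mul_right m q)
  have hm0 : m ≠ 0 := hsm.ne_zero
  obtain ⟨hd1, hd2⟩ := mem_filter.1 hd
  have hdm : d ∣ m := Nat.dvd_of_mem_divisors hd1
  have h1 : ∀ x ∈ d.primeFactors, x.Prime ∧ x ∣ m := fun x hx =>
    ⟨Nat.prime_of_mem_primeFactors hx, (Nat.dvd_of_mem_primeFactors hx).trans hdm⟩
  have h2 : ∀ x ∈ d'.primeFactors, x.Prime ∧ x ∣ m := fun x hx =>
    ⟨Nat.prime_of_mem_primeFactors hx, (Nat.dvd_of_mem_primeFactors hx).trans hd'⟩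
  calc ∏ p ∈ d.primeFactors, bp m q d' p
      = ∏ p ∈ d.primeFactors, ∏ p' ∈ d'.primeFactors, sym_a m q p p' :=
        prod_congr rfl fun p hp => sym_bp m q hf d' p hd' (h1 p hp).1
    _ = ∏ p' ∈ d'.primeFactors, ∏ p ∈ d.primeFactors, sym_a m q p p' := prod_comm
    _ = ∏ p' ∈ d'.primeFactors, ∏ p ∈ d.primeFactors, sym_a m q p' p :=
        prod_congr rfl fun p' hp' => prod_congr rfl fun p hp =>
          sym_symm m q p p' (hf.2.2.2.2 p (h1 p hp).1 (h1 p hp).2)
            (hf.2.2.2.2 p' (h2 p' hp').1 (h2 p' hp').2)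
    _ = ∏ p' ∈ d'.primeFactors, bp m q d p' :=
        prod_congr rfl fun p' hp' => (sym_bp m q hf d p' hdm (h2 p' hp').1).symm
    _ = 1 := by
        refine prod_eq_one fun p' hp' => ?_
        obtain ⟨hA, hB⟩ := hd2 p' (h2 p' hp').1 (h2 p' hp').2
        unfold bp
        by_cases h : p' ∣ d
        · rw [if_pos h]; exact hB h
        · rw [if_neg h]; exact hA h

end Pool.Agent.GL
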